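import Pool.Agent.DeckA.Defs

/-!
# Scattered subword counts and the decks of a binary string
-/

namespace DeckA

/-- `cnt z w`: the number of occurrences of `z` in `w` as a scattered subsequence. -/
def cnt : List Bool → List Bool → ℕ
  | [], _ => 1
  | _ :: _, [] => 0
  | c :: z, d :: w => cnt (c :: z) w + if c = d then cnt z w else 0

@[simp] lemma cnt_nil (w : List Bool) : cnt [] w = 1 := by
  cases w <;> rfl

@[simp] lemma cnt_cons_nil (c : Bool) (z : List Bool) : cnt (c :: z) [] = 0 := rfl

@[simp] lemma cnt_cons_cons (c d : Bool) (z w : List Bool) :
    cnt (c :: z) (d :: w) = cnt (c :: z) w + if c = d then cnt z w else 0 := rfl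

lemma cnt_zero_of_lt : ∀ (w z : List Bool), w.length < z.length → cnt z w = 0
  | _, [], h => by simp at h
  | [], _ :: _, _ => rfl
  | d :: w, c :: z, h => by
    have h1 : w.length < (c :: z).length := by simp at h ⊢; omega
    have h2 : w.length < z.length := by simpa using h
    simp [cnt_zero_of_lt w (c :: z) h1, cnt_zero_of_lt w z h2]

lemma cnt_same_length : ∀ (w z : List Bool), w.length = z.length →
    cnt z w = if z = w then 1 else 0
  | [], [], _ => by simp
  | [], _ :: _, h => by simp at h
  | _ :: _, [], h => by simp at h
  | d :: w, c :: z, h => by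
    have h2 : w.length = z.length := by simpa using h
    have h1 : w.length < (c :: z).length := by simp; omega
    rw [cnt_cons_cons, cnt_zero_of_lt w _ h1, cnt_same_length w z h2]
    by_cases hc : c = d
    · subst hc; simp
    · simp [hc]

@[simp] lemma cnt_self (w : List Bool) : cnt w w = 1 := by
  rw [cnt_same_length w w rfl]; simp

lemma count_map_cons (c d : Bool) (z : List Bool) (L : List (List Bool)) :
    (L.map (List.cons d)).count (c :: z) = if c = d then L.count z else 0 := by
  induction L with
  | nil => simp
  | cons a L ih =>
    rw [List.map_cons, List.count_cons, ih, List.count_cons]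
    by_cases hc : c = d
    · subst hc; simp
    · simp [hc, Ne.symm hc]

/-- the number of occurrences of a word of length `k` in the list of all sublists of length `k` -/
lemma count_sublistsLen : ∀ (w z : List Bool), (w.sublistsLen z.length).count z = cnt z w
  | [], [] => by simp
  | [], c :: z => by simp
  | d :: w, [] => by simp
  | d :: w, c :: z => by
    rw [List.length_cons, List.sublistsLen_succ_cons, List.count_append, count_map_cons,
      cnt_cons_cons, ← count_sublistsLen w z]
    congr 1
    exact count_sublistsLen w (c :: z)

/-- The sum of `cnt z` over all scattered subwords of length `|z|`. -/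
lemma sum_cnt_same (w z : List Bool) :
    ((w.sublistsLen z.length).map (cnt z)).sum = cnt z w := by
  have h : ∀ s ∈ w.sublistsLen z.length, cnt z s = if z = s then 1 else 0 := by
    intro s hs
    exact cnt_same_length s z (List.length_of_sublistsLen hs)
  rw [List.map_congr_left h, ← count_sublistsLen w z]
  generalize w.sublistsLen z.length = L
  induction L with
  | nil => simp
  | cons a L ih =>
    rw [List.map_cons, List.sum_cons, ih, List.count_cons]
    by_cases hc : z = a
    · subst hc; simp; ring
    · simp [hc, Ne.symm hc]

/-- Every word of length `j` occurs `|w| - j` times as often in the words of the `(j+1)`-deck. -/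
lemma sum_cnt_succ : ∀ (w z : List Bool),
    ((w.sublistsLen (z.length + 1)).map (cnt z)).sum = (w.length - z.length) * cnt z w
  | [], z => by simp
  | d :: w, [] => by
    have h := sum_cnt_succ w []
    simp only [List.length_nil] at h
    rw [List.length_nil, List.sublistsLen_succ_cons, List.map_append, List.sum_append, h]
    simp
  | d :: w, c :: z => by
    have h1 := sum_cnt_succ w (c :: z)
    have h2 := sum_cnt_succ w z
    have h3 := sum_cnt_same w (c :: z)
    simp only [List.length_cons] at h1 h3
    rw [List.length_cons, List.sublistsLen_succ_cons, List.map_append, List.sum_append, h1,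
      List.map_map]
    have h4 : ((w.sublistsLen (z.length + 1)).map (cnt (c :: z) ∘ List.cons d)).sum
        = cnt (c :: z) w + if c = d then (w.length - z.length) * cnt z w else 0 := by
      have : ∀ s ∈ w.sublistsLen (z.length + 1), (cnt (c :: z) ∘ List.cons d) s
          = cnt (c :: z) s + if c = d then cnt z s else 0 := by
        intro s _; simp
      rw [List.map_congr_left this, List.sum_map_add, h3]
      congr 1
      by_cases hc : c = d
      · simp [hc, h2]
      · simp [hc]
    rw [h4, cnt_cons_cons]
    simp only [List.length_cons]
    by_cases hlt : w.length < z.length + 1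
    · rw [cnt_zero_of_lt w (c :: z) (by simpa using hlt)]
      have : w.length - z.length = 0 := by omega
      have h5 : w.length + 1 - (z.length + 1) = 0 := by omega
      rw [this, h5]; simp
    · have e1 : w.length - z.length = w.length - (z.length + 1) + 1 := by omega
      have e2 : w.length + 1 - (z.length + 1) = w.length - (z.length + 1) + 1 := by omega
      rw [e1, e2]
      by_cases hc : c = d
      · simp [hc]; ring
      · simp [hc]; ring

lemma sublistsLen_map {α β : Type*} (f : α → β) : ∀ (k : ℕ) (l : List α),
    (l.map f).sublistsLen k = (l.sublistsLen k).map (List.map f)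
  | 0, l => by simp
  | k + 1, [] => by simp
  | k + 1, a :: l => by
    rw [List.map_cons, List.sublistsLen_succ_cons, List.sublistsLen_succ_cons, List.map_append,
      sublistsLen_map f (k + 1) l, sublistsLen_map f k l, List.map_map, List.map_map]
    rfl

lemma deck_eq {n : ℕ} (k : ℕ) (x : Fin n → Bool) :
    deck k x = (((List.ofFn x).sublistsLen k : List (List Bool)) : Multiset (List Bool)) := by
  have h1 : List.ofFn x = (List.finRange n).map x := List.ofFn_eq_map
  rw [h1, sublistsLen_map, ← Multiset.map_coe]
  unfold deck
  have h2 : (((List.finRange n).sublistsLen k : List (List (Fin n))) : Multiset (List (Fin n)))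
      = ((Finset.univ : Finset (Fin n)).powersetCard k).val.map
        (fun S : Finset (Fin n) => S.sort (· ≤ ·)) := by
    have e1 : (fun S : Finset (Fin n) => S.sort (· ≤ ·))
        = (fun m : Multiset (Fin n) => m.sort (· ≤ ·)) ∘ Finset.val := by
      funext S; rfl
    have e2 : (Finset.univ : Finset (Fin n)).val = ((List.finRange n : List (Fin n)) :
        Multiset (Fin n)) := by
      rfl
    rw [e1, ← Multiset.map_map, Finset.map_val_val_powersetCard, e2,
      Multiset.powersetCard_coe, Multiset.map_coe, List.map_map]
    congr 1
    symm
    conv_rhs => rw [← List.map_id ((List.finRange n).sublistsLen k)]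
    apply List.map_congr_left
    intro s hs
    have hs' := (List.mem_sublistsLen.1 hs).1
    have hp : s.Pairwise (· ≤ ·) :=
      List.Pairwise.sublist hs' ((List.pairwise_lt_finRange n).imp le_of_lt)
    simp only [Function.comp, Multiset.coe_sort, id]
    exact List.mergeSort_eq_self _ hp
  rw [h2, Multiset.map_map]
  rfl

lemma mcount_sublistsLen (w z : List Bool) :
    Multiset.count z ((w.sublistsLen z.length : List (List Bool)) : Multiset (List Bool))
      = cnt z w := by
  rw [Multiset.coe_count]
  convert count_sublistsLen w z

lemma count_deck {n k : ℕ} (x : Fin n → Bool) (z : List Bool) (hz : z.length = k) :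
    (deck k x).count z = cnt z (List.ofFn x) := by
  subst hz
  rw [deck_eq, mcount_sublistsLen]

lemma deck_length {n k : ℕ} (x : Fin n → Bool) {z : List Bool} (hz : z ∈ deck k x) :
    z.length = k := by
  rw [deck_eq] at hz
  exact List.length_of_sublistsLen (Multiset.mem_coe.1 hz)

lemma card_deck {n k : ℕ} (x : Fin n → Bool) : Multiset.card (deck k x) = n.choose k := by
  simp [deck]

lemma deck_ext_iff {n k : ℕ} (x y : Fin n → Bool) :
    deck k x = deck k y ↔ ∀ z : List Bool, z.length = k →
      cnt z (List.ofFn x) = cnt z (List.ofFn y) := by
  constructor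
  · intro h z hz
    rw [← count_deck x z hz, ← count_deck y z hz, h]
  · intro h
    ext z
    by_cases hz : z.length = k
    · rw [count_deck x z hz, count_deck y z hz, h z hz]
    · rw [Multiset.count_eq_zero_of_notMem (fun hm => hz (deck_length x hm)),
        Multiset.count_eq_zero_of_notMem (fun hm => hz (deck_length y hm))]

/-- The `(j+1)`-deck determines the `j`-deck. -/
lemma cnt_eq_of_succ {v w : List Bool} (hlen : v.length = w.length) {j : ℕ}
    (hj : j + 1 ≤ v.length)
    (h : ∀ z : List Bool, z.length = j + 1 → cnt z v = cnt z w) :
    ∀ z : List Bool, z.length = j → cnt z v = cnt z w := by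
  intro z hz
  have hperm : ((v.sublistsLen (j + 1) : List (List Bool)) : Multiset (List Bool))
      = ((w.sublistsLen (j + 1) : List (List Bool)) : Multiset (List Bool)) := by
    ext s
    by_cases hs : s.length = j + 1
    · rw [← hs, mcount_sublistsLen, mcount_sublistsLen]; exact h s hs
    · rw [Multiset.count_eq_zero_of_notMem
          (fun hm => hs (List.length_of_sublistsLen (Multiset.mem_coe.1 hm))),
        Multiset.count_eq_zero_of_notMem
          (fun hm => hs (List.length_of_sublistsLen (Multiset.mem_coe.1 hm)))]
  have h1 := sum_cnt_succ v z
  have h2 := sum_cnt_succ w z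
  have h3 : ((v.sublistsLen (z.length + 1)).map (cnt z)).sum
      = ((w.sublistsLen (z.length + 1)).map (cnt z)).sum := by
    rw [hz]
    have hp := Multiset.coe_eq_coe.1 hperm
    exact (hp.map (cnt z)).sum_eq
  rw [h1, h2, ← hlen] at h3
  have h4 : 0 < v.length - z.length := by omega
  exact Nat.eq_of_mul_eq_mul_left h4 h3

lemma cnt_eq_of_le {v w : List Bool} (hlen : v.length = w.length) {k : ℕ}
    (hk : k ≤ v.length)
    (h : ∀ z : List Bool, z.length = k → cnt z v = cnt z w) :
    ∀ z : List Bool, z.length ≤ k → cnt z v = cnt z w := by
  induction k with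
  | zero => intro z hz; exact h z (by omega)
  | succ k ih =>
    intro z hz
    rcases Nat.lt_or_ge z.length (k + 1) with hlt | hge
    · exact ih (by omega) (cnt_eq_of_succ hlen hk h) z (by omega)
    · exact h z (by omega)

/-- Equal `k`-decks: equal counts of every word of length at most `k`. -/
lemma cnt_eq_of_deck {n k : ℕ} (hk : k ≤ n) {x y : Fin n → Bool} (h : deck k x = deck k y) :
    ∀ z : List Bool, z.length ≤ k → cnt z (List.ofFn x) = cnt z (List.ofFn y) :=
  cnt_eq_of_le (by simp) (by simpa using hk) ((deck_ext_iff x y).1 h)

end DeckA
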