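import Mathlib

/-!
# Decks of binary strings: the definitions
-/

namespace DeckA

/-- The `k`-deck of a binary string `x = x_1 ... x_n`: the multiset of the words
`x_{i_1} ... x_{i_k}`, one for each index set `i_1 < ... < i_k`. -/
def deck {n : ℕ} (k : ℕ) (x : Fin n → Bool) : Multiset (List Bool) :=
  ((Finset.univ : Finset (Fin n)).powersetCard k).val.map fun S => (S.sort (· ≤ ·)).map x

/-- `x` is reconstructible from its `k`-deck: no other string of the same length has the same
`k`-deck. -/
def Reconstructible {n : ℕ} (k : ℕ) (x : Fin n → Bool) : Prop :=
  ∀ y : Fin n → Bool, deck k y = deck k x → y = x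

open Classical in
/-- The probability of the set `S` of strings when the letters are independent and the letter
`x i` is `true` with probability `p i`. -/
noncomputable def prob {n : ℕ} (p : Fin n → ℝ) (S : Set (Fin n → Bool)) : ℝ :=
  ∑ x : Fin n → Bool, if x ∈ S then ∏ i, (if x i then p i else 1 - p i) else 0

/-- The number of runs (maximal blocks of equal letters) of a word. -/
def runs : List Bool → ℕ
  | [] => 0
  | [_] => 1
  | a :: b :: w => runs (b :: w) + if a = b then 0 else 1

end DeckA
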