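import Pool.Agent.DeckA.Basic

/-!
# The filtered algebra of scattered subword counts
-/

namespace DeckA

/-- The functions on words spanned by the counts of words of length at most `d`. -/
def Pol (d : ℕ) : Submodule ℚ (List Bool → ℚ) :=
  Submodule.span ℚ {f | ∃ z : List Bool, z.length ≤ d ∧ f = fun w => (cnt z w : ℚ)}

lemma cnt_mem {z : List Bool} {d : ℕ} (h : z.length ≤ d) :
    (fun w => (cnt z w : ℚ)) ∈ Pol d :=
  Submodule.subset_span ⟨z, h, rfl⟩

lemma Pol_mono {a b : ℕ} (h : a ≤ b) : Pol a ≤ Pol b := by
  apply Submodule.span_mono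
  rintro f ⟨z, hz, rfl⟩
  exact ⟨z, hz.trans h, rfl⟩

/-- The summation operator: `(I s h)(w)` is the sum of `h` over the suffixes `v` of `w` for which
`s :: v` is also a suffix of `w`. -/
def I (s : Bool) (h : List Bool → ℚ) : List Bool → ℚ
  | [] => 0
  | d :: w => I s h w + if s = d then h w else 0

lemma I_cnt (s : Bool) (z : List Bool) :
    I s (fun w => (cnt z w : ℚ)) = fun w => (cnt (s :: z) w : ℚ) := by
  funext w
  induction w with
  | nil => simp [I]
  | cons d w ih =>
    rw [I, ih, cnt_cons_cons]
    push_cast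
    congr 1

lemma I_add (s : Bool) (f g : List Bool → ℚ) : I s (f + g) = I s f + I s g := by
  funext w
  induction w with
  | nil => simp [I]
  | cons d w ih =>
    simp only [I, Pi.add_apply] at ih ⊢
    rw [ih]
    split_ifs <;> ring

lemma I_smul (s : Bool) (c : ℚ) (f : List Bool → ℚ) : I s (c • f) = c • I s f := by
  funext w
  induction w with
  | nil => simp [I]
  | cons d w ih =>
    simp only [I, Pi.smul_apply, smul_eq_mul] at ih ⊢
    rw [ih]
    split_ifs <;> ring

lemma I_zero (s : Bool) : I s 0 = 0 := by
  have := I_smul s 0 0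
  simpa using this

lemma I_mul (s t : Bool) (f g : List Bool → ℚ) :
    I s f * I t g = I s (f * I t g) + I t (I s f * g) + if s = t then I s (f * g) else 0 := by
  funext w
  induction w with
  | nil =>
    by_cases h : s = t <;> simp [I, h]
  | cons d w ih =>
    by_cases h : s = t
    · subst h
      simp only [I, Pi.mul_apply, Pi.add_apply, if_true] at ih ⊢
      by_cases hd : s = d
      · simp only [hd, if_true] at ih ⊢
        linear_combination ih
      · simp only [hd, if_false] at ih ⊢
        linear_combination ih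
    · simp only [I, Pi.mul_apply, Pi.add_apply, h, if_false, Pi.zero_apply] at ih ⊢
      by_cases hd : s = d
      · have ht : ¬ t = d := fun h' => h (hd.trans h'.symm)
        simp only [hd, ht, if_true, if_false] at ih ⊢
        linear_combination ih
      · simp only [hd, if_false] at ih ⊢
        by_cases ht : t = d
        · simp only [ht, if_true] at ih ⊢
          linear_combination ih
        · simp only [ht, if_false] at ih ⊢
          linear_combination ih

lemma I_mem {d : ℕ} (s : Bool) {f : List Bool → ℚ} (hf : f ∈ Pol d) : I s f ∈ Pol (d + 1) := by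
  induction hf using Submodule.span_induction with
  | mem f hf =>
    obtain ⟨z, hz, rfl⟩ := hf
    rw [I_cnt]
    exact cnt_mem (by simpa using hz)
  | zero => rw [I_zero]; exact zero_mem _
  | add f g _ _ hf hg => rw [I_add]; exact add_mem hf hg
  | smul c f _ hf => rw [I_smul]; exact Submodule.smul_mem _ _ hf

lemma cnt_mul_mem : ∀ (n : ℕ) (u v : List Bool), u.length + v.length = n →
    (fun w => (cnt u w : ℚ)) * (fun w => (cnt v w : ℚ)) ∈ Pol n := by
  intro n
  induction n using Nat.strong_induction_on with
  | _ n ih =>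
    intro u v hn
    match u, v with
    | [], v =>
      have : (fun w => (cnt [] w : ℚ)) * (fun w => (cnt v w : ℚ)) = fun w => (cnt v w : ℚ) := by
        funext w; simp
      rw [this]
      exact cnt_mem (by simp at hn; omega)
    | u, [] =>
      have : (fun w => (cnt u w : ℚ)) * (fun w => (cnt [] w : ℚ)) = fun w => (cnt u w : ℚ) := by
        funext w; simp
      rw [this]
      exact cnt_mem (by simp at hn; omega)
    | s :: u, t :: v =>
      simp only [List.length_cons] at hn
      have h1 : I s ((fun w => (cnt u w : ℚ)) * I t (fun w => (cnt v w : ℚ))) ∈ Pol n := by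
        rw [I_cnt]
        have := I_mem s (ih (u.length + (t :: v).length) (by simp; omega) u (t :: v) rfl)
        exact Pol_mono (by simp; omega) this
      have h2 : I t (I s (fun w => (cnt u w : ℚ)) * (fun w => (cnt v w : ℚ))) ∈ Pol n := by
        rw [I_cnt]
        have := I_mem t (ih ((s :: u).length + v.length) (by simp; omega) (s :: u) v rfl)
        exact Pol_mono (by simp; omega) this
      have h3 : I s ((fun w => (cnt u w : ℚ)) * (fun w => (cnt v w : ℚ))) ∈ Pol n := by
        have := I_mem s (ih (u.length + v.length) (by omega) u v rfl)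
        exact Pol_mono (by omega) this
      rw [← I_cnt, ← I_cnt, I_mul]
      refine add_mem (add_mem h1 h2) ?_
      split_ifs
      · exact h3
      · exact zero_mem _

lemma mul_mem_Pol {a b : ℕ} {f g : List Bool → ℚ} (hf : f ∈ Pol a) (hg : g ∈ Pol b) :
    f * g ∈ Pol (a + b) := by
  induction hf using Submodule.span_induction with
  | mem f hf =>
    obtain ⟨u, hu, rfl⟩ := hf
    induction hg using Submodule.span_induction with
    | mem g hg =>
      obtain ⟨v, hv, rfl⟩ := hg
      exact Pol_mono (by omega) (cnt_mul_mem _ u v rfl)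
    | zero => rw [mul_zero]; exact zero_mem _
    | add f g _ _ hf hg => rw [mul_add]; exact add_mem hf hg
    | smul c f _ hf => rw [mul_smul_comm]; exact Submodule.smul_mem _ _ hf
  | zero => rw [zero_mul]; exact zero_mem _
  | add f g _ _ hf hg => rw [add_mul]; exact add_mem hf hg
  | smul c f _ hf => rw [smul_mul_assoc]; exact Submodule.smul_mem _ _ hf

lemma one_mem_Pol (a : ℕ) : (1 : List Bool → ℚ) ∈ Pol a := by
  have : (1 : List Bool → ℚ) = fun w => (cnt [] w : ℚ) := by funext w; simp
  rw [this]; exact cnt_mem (by simp)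

/-- Functions in `Pol k` are determined by the counts of words of length at most `k`. -/
lemma eval_eq {k : ℕ} {v w : List Bool} (h : ∀ z : List Bool, z.length ≤ k → cnt z v = cnt z w)
    {F : List Bool → ℚ} (hF : F ∈ Pol k) : F v = F w := by
  induction hF using Submodule.span_induction with
  | mem f hf =>
    obtain ⟨z, hz, rfl⟩ := hf
    simp only [h z hz]
  | zero => rfl
  | add f g _ _ hf hg => simp only [Pi.add_apply, hf, hg]
  | smul c f _ hf => simp only [Pi.smul_apply, hf]

/-! ## Right translations -/

lemma cnt_snoc (c d : Bool) : ∀ (z u : List Bool),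
    cnt (u ++ [c]) (z ++ [d]) = cnt (u ++ [c]) z + if c = d then cnt u z else 0
  | [], [] => by simp
  | [], a :: u => by
    have h1 : cnt (u ++ [c]) [] = 0 := cnt_zero_of_lt _ _ (by simp)
    simp [h1]
  | e :: z, [] => by
    have ih := cnt_snoc c d z []
    simp only [List.nil_append, List.cons_append, cnt_cons_cons, cnt_nil] at ih ⊢
    rw [ih]; ring
  | e :: z, a :: u => by
    have ih1 := cnt_snoc c d z (a :: u)
    have ih2 := cnt_snoc c d z u
    simp only [List.cons_append, cnt_cons_cons] at ih1 ih2 ⊢
    rw [ih1, ih2]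
    split_ifs <;> ring

lemma exists_snoc (d : Bool) (u : List Bool) :
    ∃ f ∈ Pol u.length, ∀ z : List Bool, f (z ++ [d]) = (cnt u z : ℚ) := by
  induction u using List.reverseRecOn with
  | nil => exact ⟨1, one_mem_Pol _, fun z => by simp⟩
  | append_singleton u c ih =>
    obtain ⟨f, hf, hfz⟩ := ih
    refine ⟨(fun w => (cnt (u ++ [c]) w : ℚ)) - (if c = d then (1 : ℚ) else 0) • f, ?_, ?_⟩
    · refine sub_mem (cnt_mem le_rfl) (Submodule.smul_mem _ _ (Pol_mono (by simp) hf))
    · intro z
      simp only [Pi.sub_apply, Pi.smul_apply, hfz, cnt_snoc, smul_eq_mul]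
      push_cast
      split_ifs <;> ring

lemma exists_snoc_Pol (d : Bool) {a : ℕ} {g : List Bool → ℚ} (hg : g ∈ Pol a) :
    ∃ f ∈ Pol a, ∀ z : List Bool, f (z ++ [d]) = g z := by
  induction hg using Submodule.span_induction with
  | mem g hg =>
    obtain ⟨u, hu, rfl⟩ := hg
    obtain ⟨f, hf, h⟩ := exists_snoc d u
    exact ⟨f, Pol_mono hu hf, h⟩
  | zero => exact ⟨0, zero_mem _, fun z => rfl⟩
  | add g1 g2 _ _ h1 h2 =>
    obtain ⟨f1, hf1, h1⟩ := h1
    obtain ⟨f2, hf2, h2⟩ := h2
    exact ⟨f1 + f2, add_mem hf1 hf2, fun z => by simp [h1, h2]⟩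
  | smul c g _ h =>
    obtain ⟨f, hf, h⟩ := h
    exact ⟨c • f, Submodule.smul_mem _ _ hf, fun z => by simp [h]⟩

lemma exists_append (q u : List Bool) :
    ∃ f ∈ Pol u.length, ∀ z : List Bool, f (z ++ q) = (cnt u z : ℚ) := by
  induction q using List.reverseRecOn with
  | nil => exact ⟨fun w => (cnt u w : ℚ), cnt_mem le_rfl, fun z => by simp⟩
  | append_singleton q d ih =>
    obtain ⟨f, hf, h⟩ := ih
    obtain ⟨f', hf', h'⟩ := exists_snoc_Pol d hf
    refine ⟨f', hf', fun z => ?_⟩
    rw [← List.append_assoc, h', h]

/-! ## Fresh words and the reconstruction criterion -/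

/-- `w` is `l`-fresh: some function in `Pol l` is `1` at `w` and `0` at all proper suffixes. -/
def Fresh (l : ℕ) (w : List Bool) : Prop :=
  ∃ f ∈ Pol l, f w = 1 ∧ ∀ v : List Bool, v <:+ w → v ≠ w → f v = 0

/-- All suffixes are fresh. -/
def AllFresh (l : ℕ) (w : List Bool) : Prop := ∀ v : List Bool, v <:+ w → Fresh l v

lemma suffix_cons_cases {v w : List Bool} {d : Bool} (h : v <:+ d :: w) :
    v = d :: w ∨ v <:+ w := List.suffix_cons_iff.1 h

lemma AllFresh.dual {l : ℕ} : ∀ {w : List Bool}, AllFresh l w → ∀ p : List Bool, p <:+ w →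
    ∃ f ∈ Pol l, f p = 1 ∧ ∀ v : List Bool, v <:+ w → p.length < v.length → f v = 0
  | [], _, p, hp => by
    have : p = [] := List.suffix_nil.1 hp
    subst this
    refine ⟨1, one_mem_Pol _, rfl, fun v hv hlt => ?_⟩
    have := List.suffix_nil.1 hv
    subst this
    simp at hlt
  | d :: w, hw, p, hp => by
    rcases suffix_cons_cases hp with h | h
    · subst h
      refine ⟨1, one_mem_Pol _, rfl, fun v hv hlt => ?_⟩
      have := hv.length_le
      omega
    · have hw' : AllFresh l w := fun v hv => hw v (hv.trans (List.suffix_cons d w))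
      obtain ⟨f, hf, hfp, hfv⟩ := AllFresh.dual hw' p h
      obtain ⟨g, hg, hgw, hgv⟩ := hw (d :: w) List.suffix_rfl
      have hg0 : ∀ v : List Bool, v <:+ w → g v = 0 := by
        intro v hv
        refine hgv v (hv.trans (List.suffix_cons d w)) ?_
        intro he
        have := hv.length_le
        rw [he] at this
        simp at this
      refine ⟨f - f (d :: w) • g, sub_mem hf (Submodule.smul_mem _ _ hg), ?_, ?_⟩
      · simp [hfp, hg0 p h]
      · intro v hv hlt
        rcases suffix_cons_cases hv with h' | h'
        · subst h'; simp [hgw]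
        · simp [hfv v h' hlt, hg0 v h']

lemma exists_last_diff : ∀ {x y : List Bool}, x.length = y.length → x ≠ y →
    ∃ (x' y' p : List Bool) (c c' : Bool), c ≠ c' ∧ x = x' ++ c :: p ∧ y = y' ++ c' :: p
  | [], [], _, h => absurd rfl h
  | [], _ :: _, h, _ => by simp at h
  | _ :: _, [], h, _ => by simp at h
  | a :: x, b :: y, hl, hne => by
    by_cases h : x = y
    · subst h
      refine ⟨[], [], x, a, b, ?_, rfl, rfl⟩
      intro hab; subst hab; exact hne rfl
    · obtain ⟨x', y', p, c, c', hc, h1, h2⟩ := exists_last_diff (by simpa using hl) h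
      exact ⟨a :: x', b :: y', p, c, c', hc, by simp [h1], by simp [h2]⟩

lemma I_append_ge (s : Bool) {h : List Bool → ℚ} (h0 : ∀ w, 0 ≤ h w) (w : List Bool) :
    ∀ y' : List Bool, I s h w ≤ I s h (y' ++ w)
  | [] => le_rfl
  | a :: y' => by
    rw [List.cons_append, I]
    have := I_append_ge s h0 w y'
    split_ifs
    · have := h0 (y' ++ w); linarith
    · linarith

lemma I_append_eq (s c : Bool) (hsc : s ≠ c) {h : List Bool → ℚ} (p : List Bool) :
    ∀ x' : List Bool, (∀ v : List Bool, v <:+ (x' ++ c :: p).tail → p.length < v.length → h v = 0) →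
      I s h (x' ++ c :: p) = I s h p
  | [], _ => by simp [I, hsc]
  | a :: x', hv => by
    rw [List.cons_append, I, I_append_eq s c hsc p x']
    · have : h (x' ++ c :: p) = 0 := by
        apply hv
        · simp
        · simp; omega
      simp [this]
    · intro v hv' hlt
      apply hv v _ hlt
      simp only [List.cons_append, List.tail_cons]
      exact hv'.trans (List.tail_suffix _)

/-- **Criterion.** If all proper suffixes of `x` are `l`-fresh, then `x` is determined among the
words of its length by its counts of words of length at most `2 l + 1`. -/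
theorem criterion {l : ℕ} {x y : List Bool} (hlen : x.length = y.length)
    (hx : AllFresh l x.tail)
    (h : ∀ z : List Bool, z.length ≤ 2 * l + 1 → cnt z x = cnt z y) : x = y := by
  by_contra hne
  obtain ⟨x', y', p, c, c', hc, rfl, rfl⟩ := exists_last_diff hlen hne
  have hp : p <:+ (x' ++ c :: p).tail := by
    cases x' with
    | nil => simp
    | cons a x' =>
      simp only [List.cons_append, List.tail_cons]
      exact (List.suffix_cons c p).trans (List.suffix_append _ _)
  obtain ⟨f, hf, hfp, hfv⟩ := hx.dual p hp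
  have hF : I c' (f * f) ∈ Pol (2 * l + 1) := by
    rw [two_mul]
    exact I_mem c' (mul_mem_Pol hf hf)
  have e1 := eval_eq h hF
  have e2 : I c' (f * f) (x' ++ c :: p) = I c' (f * f) p := by
    apply I_append_eq c' c (Ne.symm hc)
    intro v hv hlt
    simp [hfv v hv hlt]
  have e3 : I c' (f * f) p + 1 ≤ I c' (f * f) (y' ++ c' :: p) := by
    have := I_append_ge c' (h := f * f) (fun w => mul_self_nonneg _) (c' :: p) y'
    rw [I] at this
    simpa [hfp] using this
  rw [e1] at e2
  rw [e2] at e3
  linarith

/-! ## Counting words that are not fresh -/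

lemma fresh_of_short {l : ℕ} {w : List Bool} (h : w.length ≤ l) : Fresh l w := by
  refine ⟨fun v => (cnt w v : ℚ), cnt_mem h, by simp, ?_⟩
  intro v hv hne
  have hlt : v.length < w.length := by
    rcases Nat.lt_or_ge v.length w.length with h' | h'
    · exact h'
    · exact absurd (hv.eq_of_length_le h') hne
  simp [cnt_zero_of_lt v w hlt]

/-- For every `q`, at most `|q|` words `z` of length `l` are such that `z ++ q` is not fresh. -/
theorem bad_card (l : ℕ) (q : List Bool) (B : Finset (List Bool))
    (hB : ∀ z ∈ B, z.length = l ∧ ¬ Fresh l (z ++ q)) : B.card ≤ q.length := by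
  by_contra hlt
  rw [not_le] at hlt
  choose F hF hFz using fun u : List Bool => exists_append q u
  let L : (B → ℚ) →ₗ[ℚ] (Fin q.length → ℚ) :=
    { toFun := fun a i => ∑ u : B, a u * F u.1 (q.drop (i.1 + 1))
      map_add' := by
        intro a b; funext i
        simp [add_mul, Finset.sum_add_distrib]
      map_smul' := by
        intro c a; funext i
        simp [Finset.mul_sum, mul_assoc] }
  have hker : LinearMap.ker L ≠ ⊥ := by
    apply LinearMap.ker_ne_bot_of_finrank_lt
    simpa using hlt
  obtain ⟨a, ha, ha0⟩ := (Submodule.ne_bot_iff _).1 hker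
  have ha' : ∀ i : Fin q.length, ∑ u : B, a u * F u.1 (q.drop (i.1 + 1)) = 0 := fun i =>
    congrFun (LinearMap.mem_ker.1 ha) i
  obtain ⟨z, hz⟩ : ∃ z : B, a z ≠ 0 := by
    by_contra hcon
    exact ha0 (funext fun i => by_contra fun h => hcon ⟨i, h⟩)
  let f : List Bool → ℚ := ∑ u : B, a u • F u.1
  have hfP : f ∈ Pol l := by
    refine Submodule.sum_mem _ (fun u _ => Submodule.smul_mem _ _ ?_)
    have := hF u.1
    rwa [(hB u.1 u.2).1] at this
  have hfv : ∀ w, f w = ∑ u : B, a u * F u.1 w := by
    intro w
    simp [f, Finset.sum_apply]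
  have hfz : f (z.1 ++ q) = a z := by
    rw [hfv]
    rw [Finset.sum_eq_single z]
    · rw [hFz]; simp
    · intro u _ hu
      rw [hFz, cnt_same_length z.1 u.1 (by rw [(hB z.1 z.2).1, (hB u.1 u.2).1])]
      rw [if_neg (fun h => hu (Subtype.ext h))]
      simp
    · intro h; exact absurd (Finset.mem_univ _) h
  apply (hB z.1 z.2).2
  refine ⟨(a z)⁻¹ • f, Submodule.smul_mem _ _ hfP, ?_, ?_⟩
  · simp [hfz, hz]
  · intro v hv hne
    have h0 : f v = 0 := by
      obtain ⟨j, hj, hjle⟩ : ∃ j, v = (z.1 ++ q).drop j ∧ j ≤ z.1.length + q.length := by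
        refine ⟨_, List.suffix_iff_eq_drop.1 hv, ?_⟩
        simp
      have hj1 : 1 ≤ j := by
        rcases Nat.eq_zero_or_pos j with h | h
        · subst h; simp at hj; exact absurd hj hne
        · exact h
      rw [hj, List.drop_append]
      by_cases hjz : j ≤ z.1.length
      · have : j - z.1.length = 0 := by omega
        rw [this, List.drop_zero, hfv]
        apply Finset.sum_eq_zero
        intro u _
        rw [hFz, cnt_zero_of_lt]
        · simp
        · rw [List.length_drop, (hB z.1 z.2).1, (hB u.1 u.2).1]
          rw [(hB z.1 z.2).1] at hjz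
          omega
      · rw [not_le] at hjz
        rw [List.drop_eq_nil_of_le hjz.le, List.nil_append]
        have := ha' ⟨j - z.1.length - 1, by omega⟩
        have e : j - z.1.length = j - z.1.length - 1 + 1 := by omega
        rw [hfv, e]
        exact this
    simp [h0]

end DeckA
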