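import Pool.Agent.DeckA.Pol

/-!
# Random strings: the probability that some suffix is not fresh
-/

namespace DeckA

/-- The weight of the string `x` when its letters are independent and the letter with `j` letters
to its right is `b` with probability `ω j b`. -/
noncomputable def W (ω : ℕ → Bool → ℝ) (n : ℕ) (x : Fin n → Bool) : ℝ :=
  ∏ i : Fin n, ω (n - 1 - i) (x i)

/-- The expectation of `g` over strings of length `n`. -/
noncomputable def E (ω : ℕ → Bool → ℝ) (n : ℕ) (g : List Bool → ℝ) : ℝ :=
  ∑ x : Fin n → Bool, W ω n x * g (List.ofFn x)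

/-- One step of the expectation: the average over one new letter on the left. -/
noncomputable def T (ω : ℕ → Bool → ℝ) (g : List Bool → ℝ) (s : List Bool) : ℝ :=
  ω s.length true * g (true :: s) + ω s.length false * g (false :: s)

lemma W_cons (ω : ℕ → Bool → ℝ) (n : ℕ) (b : Bool) (x : Fin n → Bool) :
    W ω (n + 1) (Fin.cons b x : Fin (n + 1) → Bool) = ω n b * W ω n x := by
  unfold W
  rw [Fin.prod_univ_succ]
  congr 1
  apply Finset.prod_congr rfl
  intro i _
  have : n + 1 - 1 - (i.succ : ℕ) = n - 1 - (i : ℕ) := by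
    rw [Fin.val_succ]; omega
  rw [this, Fin.cons_succ]

lemma E_succ (ω : ℕ → Bool → ℝ) (n : ℕ) (g : List Bool → ℝ) :
    E ω (n + 1) g = E ω n (T ω g) := by
  unfold E
  rw [← (Fin.consEquiv (fun _ : Fin (n + 1) => Bool)).sum_comp, Fintype.sum_prod_type,
    Fintype.sum_bool, ← Finset.sum_add_distrib]
  apply Finset.sum_congr rfl
  intro x _
  have h1 : ∀ b : Bool, (Fin.consEquiv (fun _ : Fin (n + 1) => Bool)) (b, x)
      = (Fin.cons b x : Fin (n + 1) → Bool) := fun b => rfl
  rw [h1, h1, W_cons, W_cons]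
  have h2 : ∀ b : Bool, List.ofFn (Fin.cons b x : Fin (n + 1) → Bool) = b :: List.ofFn x := by
    intro b
    rw [List.ofFn_succ]; simp
  rw [h2, h2]
  unfold T
  rw [List.length_ofFn]
  ring

section

variable {ω : ℕ → Bool → ℝ}

lemma W_nonneg (h0 : ∀ j b, 0 ≤ ω j b) (n : ℕ) (x : Fin n → Bool) : 0 ≤ W ω n x :=
  Finset.prod_nonneg fun _ _ => h0 _ _

lemma E_mono (h0 : ∀ j b, 0 ≤ ω j b) (n : ℕ) {g h : List Bool → ℝ}
    (hgh : ∀ w : List Bool, w.length = n → g w ≤ h w) : E ω n g ≤ E ω n h := by
  apply Finset.sum_le_sum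
  intro x _
  exact mul_le_mul_of_nonneg_left (hgh _ (by simp)) (W_nonneg h0 n x)

lemma E_congr (n : ℕ) {g h : List Bool → ℝ}
    (hgh : ∀ w : List Bool, w.length = n → g w = h w) : E ω n g = E ω n h := by
  apply Finset.sum_congr rfl
  intro x _
  rw [hgh _ (by simp)]

lemma E_add (n : ℕ) (g h : List Bool → ℝ) :
    E ω n (fun w => g w + h w) = E ω n g + E ω n h := by
  unfold E
  rw [← Finset.sum_add_distrib]
  apply Finset.sum_congr rfl
  intro x _
  ring

lemma E_tail (h1 : ∀ j, ω j true + ω j false = 1) (n : ℕ) (g : List Bool → ℝ) :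
    E ω (n + 1) (fun w => g w.tail) = E ω n g := by
  rw [E_succ]
  apply E_congr
  intro w _
  unfold T
  simp only [List.tail_cons]
  rw [← add_mul, h1, one_mul]

lemma E_const (h1 : ∀ j, ω j true + ω j false = 1) (c : ℝ) : ∀ n : ℕ,
    E ω n (fun _ => c) = c
  | 0 => by simp [E, W]
  | n + 1 => by
    rw [E_tail h1 n (fun _ => c)]
    exact E_const h1 c n

lemma E_iterate (g : List Bool → ℝ) : ∀ l m : ℕ, E ω (m + l) g = E ω m ((T ω)^[l] g)
  | 0, m => rfl
  | l + 1, m => by
    rw [← add_assoc, E_succ, E_iterate (T ω g) l m, Function.iterate_succ_apply]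

/-- The conditional probability of a set of strings, given all but the first `j` letters, is at
most `ρ ^ j` times the number of its strings. -/
lemma iterate_le {ρ : ℝ} (h0 : ∀ j b, 0 ≤ ω j b) (hρ : ∀ j b, ω j b ≤ ρ)
    (S : List Bool → Prop) [DecidablePred S] : ∀ (j : ℕ) (q : List Bool),
    ∃ B : Finset (List Bool), (∀ z ∈ B, z.length = j ∧ S (z ++ q)) ∧
      (T ω)^[j] (fun w => if S w then (1 : ℝ) else 0) q ≤ ρ ^ j * B.card
  | 0, q => by
    by_cases h : S q
    · refine ⟨{[]}, ?_, ?_⟩
      · intro z hz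
        rw [Finset.mem_singleton] at hz
        subst hz
        exact ⟨rfl, h⟩
      · simp [h]
    · exact ⟨∅, by simp, by simp [h]⟩
  | j + 1, q => by
    obtain ⟨B1, hB1, h1⟩ := iterate_le h0 hρ S j (true :: q)
    obtain ⟨B2, hB2, h2⟩ := iterate_le h0 hρ S j (false :: q)
    have hinj : ∀ b : Bool, Function.Injective (fun z : List Bool => z ++ [b]) :=
      fun b z z' h => List.append_cancel_right h
    refine ⟨B1.image (fun z => z ++ [true]) ∪ B2.image (fun z => z ++ [false]), ?_, ?_⟩
    · intro z hz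
      rw [Finset.mem_union, Finset.mem_image, Finset.mem_image] at hz
      rcases hz with ⟨a, ha, rfl⟩ | ⟨a, ha, rfl⟩
      · refine ⟨by simp [(hB1 a ha).1], ?_⟩
        simpa using (hB1 a ha).2
      · refine ⟨by simp [(hB2 a ha).1], ?_⟩
        simpa using (hB2 a ha).2
    · have hdisj : Disjoint (B1.image (fun z => z ++ [true]))
          (B2.image (fun z => z ++ [false])) := by
        rw [Finset.disjoint_left]
        intro z hz hz'
        rw [Finset.mem_image] at hz hz'
        obtain ⟨a, _, rfl⟩ := hz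
        obtain ⟨b, _, hb⟩ := hz'
        have := congrArg List.getLast? hb
        simp at this
      rw [Finset.card_union_of_disjoint hdisj, Finset.card_image_of_injective _ (hinj true),
        Finset.card_image_of_injective _ (hinj false), Function.iterate_succ_apply']
      unfold T at h1 h2 ⊢
      have hρ0 : 0 ≤ ρ := (h0 0 true).trans (hρ 0 true)
      have hn1 : (0 : ℝ) ≤ ρ ^ j * B1.card := by positivity
      have hn2 : (0 : ℝ) ≤ ρ ^ j * B2.card := by positivity
      calc _ ≤ ω q.length true * (ρ ^ j * B1.card) + ω q.length false * (ρ ^ j * B2.card) :=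
            add_le_add (mul_le_mul_of_nonneg_left h1 (h0 _ _))
              (mul_le_mul_of_nonneg_left h2 (h0 _ _))
        _ ≤ ρ * (ρ ^ j * B1.card) + ρ * (ρ ^ j * B2.card) :=
            add_le_add (mul_le_mul_of_nonneg_right (hρ _ _) hn1)
              (mul_le_mul_of_nonneg_right (hρ _ _) hn2)
        _ = ρ ^ (j + 1) * ((B1.card + B2.card : ℕ) : ℝ) := by push_cast; ring

open Classical in
lemma E_notFresh {ρ : ℝ} (h0 : ∀ j b, 0 ≤ ω j b) (h1 : ∀ j, ω j true + ω j false = 1)
    (hρ : ∀ j b, ω j b ≤ ρ) (l n : ℕ) :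
    E ω n (fun w => if ¬ Fresh l w then (1 : ℝ) else 0) ≤ ((n - l : ℕ) : ℝ) * ρ ^ l := by
  rcases Nat.lt_or_ge n l with h | h
  · have : E ω n (fun w => if ¬ Fresh l w then (1 : ℝ) else 0) = E ω n (fun _ => 0) := by
      apply E_congr
      intro w hw
      have := fresh_of_short (l := l) (w := w) (by omega)
      simp [this]
    rw [this, E_const h1]
    have hρ0 : 0 ≤ ρ := (h0 0 true).trans (hρ 0 true)
    positivity
  · obtain ⟨m, rfl⟩ : ∃ m, n = m + l := ⟨n - l, by omega⟩
    rw [E_iterate]
    have : m + l - l = m := by omega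
    rw [this, ← E_const h1 ((m : ℝ) * ρ ^ l) m]
    apply E_mono h0
    intro q hq
    obtain ⟨B, hB, hle⟩ := iterate_le h0 hρ (fun w => ¬ Fresh l w) l q
    have hc := bad_card l q B hB
    rw [hq] at hc
    have hρ0 : 0 ≤ ρ := (h0 0 true).trans (hρ 0 true)
    refine hle.trans ?_
    rw [mul_comm]
    exact mul_le_mul_of_nonneg_right (by exact_mod_cast hc) (by positivity)

open Classical in
lemma E_notAllFresh {ρ : ℝ} (h0 : ∀ j b, 0 ≤ ω j b) (h1 : ∀ j, ω j true + ω j false = 1)
    (hρ : ∀ j b, ω j b ≤ ρ) (l : ℕ) : ∀ n : ℕ,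
    E ω n (fun w => if ¬ AllFresh l w then (1 : ℝ) else 0)
      ≤ (∑ m ∈ Finset.range (n + 1), ((m - l : ℕ) : ℝ)) * ρ ^ l
  | 0 => by
    have hρ0 : 0 ≤ ρ := (h0 0 true).trans (hρ 0 true)
    have : E ω 0 (fun w => if ¬ AllFresh l w then (1 : ℝ) else 0) = E ω 0 (fun _ => 0) := by
      apply E_congr
      intro w hw
      have : AllFresh l w := by
        intro v hv
        apply fresh_of_short
        have := hv.length_le
        omega
      simp [this]
    rw [this, E_const h1]
    positivity
  | n + 1 => by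
    have ih := E_notAllFresh h0 h1 hρ l n
    rw [Finset.sum_range_succ, add_mul]
    rw [← E_tail h1] at ih
    have h2 := E_notFresh h0 h1 hρ l (n + 1)
    refine le_trans ?_ (add_le_add ih h2)
    rw [← E_add]
    apply E_mono h0
    intro w hw
    cases w with
    | nil => simp at hw
    | cons d w =>
      simp only [List.tail_cons]
      by_cases ha : AllFresh l w
      · by_cases hb : Fresh l (d :: w)
        · have : AllFresh l (d :: w) := by
            intro v hv
            rcases suffix_cons_cases hv with h | h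
            · rw [h]; exact hb
            · exact ha v h
          simp [ha, hb, this]
        · simp only [ha, hb, not_true_eq_false, if_false, not_false_eq_true, if_true, zero_add]
          split_ifs <;> norm_num
      · simp only [ha, not_false_eq_true, if_true]
        split_ifs <;> norm_num

end

lemma sum_sub_le (l n : ℕ) :
    (∑ m ∈ Finset.range (n + 1), ((m - l : ℕ) : ℝ)) ≤ ((n + 1 : ℕ) : ℝ) ^ 2 / 2 := by
  have h : (∑ m ∈ Finset.range (n + 1), ((m - l : ℕ) : ℝ))
      ≤ ∑ m ∈ Finset.range (n + 1), (m : ℝ) := by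
    apply Finset.sum_le_sum
    intro m _
    exact_mod_cast Nat.sub_le m l
  refine h.trans ?_
  have h2 : ∀ n : ℕ, ∑ m ∈ Finset.range (n + 1), (m : ℝ) = (n : ℝ) * (n + 1) / 2 := by
    intro n
    induction n with
    | zero => simp
    | succ n ih =>
      rw [Finset.sum_range_succ, ih]; push_cast; ring
  rw [h2]
  push_cast
  nlinarith [Nat.cast_nonneg (α := ℝ) n]

/-- A string all of whose proper suffixes are `l`-fresh is reconstructible from its `k`-deck for
all `k` between `2 l + 1` and its length. -/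
lemma reconstructible_of_allFresh {n k l : ℕ} (hk : 2 * l + 1 ≤ k) (hkn : k ≤ n)
    (x : Fin n → Bool) (hx : AllFresh l (List.ofFn x).tail) : Reconstructible k x := by
  intro y hy
  have h := cnt_eq_of_deck hkn hy.symm
  have : List.ofFn x = List.ofFn y := by
    apply criterion (l := l) (by simp) hx
    intro z hz
    exact h z (hz.trans hk)
  exact (List.ofFn_injective this).symm

/-- The probability that a random string with independent letters is not reconstructible. -/
theorem smoothed {n k l : ℕ} (hk : 2 * l + 1 ≤ k) (hkn : k ≤ n) {ε : ℝ} (p : Fin n → ℝ)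
    (hε : 0 ≤ ε) (hp : ∀ i, ε ≤ p i ∧ p i ≤ 1 - ε) :
    (∑ x : Fin n → Bool, open Classical in
      if Reconstructible k x then 0 else ∏ i, (if x i then p i else 1 - p i))
        ≤ (n : ℝ) ^ 2 / 2 * (1 - ε) ^ l := by
  classical
  obtain ⟨m, rfl⟩ : ∃ m, n = m + 1 := ⟨n - 1, by omega⟩
  let ω : ℕ → Bool → ℝ := fun j b =>
    if h : j < m + 1 then (if b then p ⟨m - j, by omega⟩ else 1 - p ⟨m - j, by omega⟩) else 1 / 2
  have h0 : ∀ j b, 0 ≤ ω j b := by
    intro j b
    simp only [ω]
    split_ifs with h hb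
    · exact hε.trans (hp _).1
    · have := (hp ⟨m - j, by omega⟩).2; linarith
    · norm_num
  have h1 : ∀ j, ω j true + ω j false = 1 := by
    intro j
    simp only [ω]
    by_cases h : j < m + 1
    · simp [h]
    · simp [h]; norm_num
  have hρ : ∀ j b, ω j b ≤ 1 - ε := by
    intro j b
    simp only [ω]
    split_ifs with h hb
    · exact (hp _).2
    · have := (hp ⟨m - j, by omega⟩).1; linarith
    · have := hp 0; linarith [this.1, this.2]
  have hW : ∀ x : Fin (m + 1) → Bool, W ω (m + 1) x = ∏ i, (if x i then p i else 1 - p i) := by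
    intro x
    unfold W
    apply Finset.prod_congr rfl
    intro i _
    have hi := i.2
    have e1 : m + 1 - 1 - (i : ℕ) < m + 1 := by omega
    have e2 : (⟨m - (m + 1 - 1 - (i : ℕ)), by omega⟩ : Fin (m + 1)) = i := by
      apply Fin.ext; simp only; omega
    simp only [ω]
    rw [dif_pos e1, e2]
  have hE := E_notAllFresh h0 h1 hρ l m
  rw [← E_tail h1] at hE
  have hs := sum_sub_le l m
  have hρ0 : 0 ≤ 1 - ε := (h0 0 true).trans (hρ 0 true)
  calc _ ≤ E ω (m + 1) (fun w => if ¬ AllFresh l w.tail then (1 : ℝ) else 0) := by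
        unfold E
        apply Finset.sum_le_sum
        intro x _
        rw [← hW x]
        beta_reduce
        by_cases hr : Reconstructible k x
        · rw [if_pos hr]
          apply mul_nonneg (W_nonneg h0 _ x)
          split_ifs <;> norm_num
        · have : ¬ AllFresh l (List.ofFn x).tail :=
            fun h => hr (reconstructible_of_allFresh hk hkn x h)
          rw [if_neg hr, if_pos this, mul_one]
    _ ≤ _ := hE
    _ ≤ _ := mul_le_mul_of_nonneg_right hs (by positivity)

/-- The same in terms of the probability of the set of reconstructible strings. -/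
theorem smoothed_prob {n k l : ℕ} (hk : 2 * l + 1 ≤ k) (hkn : k ≤ n) {ε : ℝ} (p : Fin n → ℝ)
    (hε : 0 ≤ ε) (hp : ∀ i, ε ≤ p i ∧ p i ≤ 1 - ε) :
    1 - (n : ℝ) ^ 2 / 2 * (1 - ε) ^ l ≤ prob p {x | Reconstructible k x} := by
  classical
  have h := smoothed hk hkn p hε hp
  have hsum : ∑ x : Fin n → Bool, ∏ i, (if x i then p i else 1 - p i) = 1 := by
    have h1 := Finset.prod_univ_sum (fun _ : Fin n => (Finset.univ : Finset Bool))
      (fun i b => if b then p i else 1 - p i)
    rw [Fintype.piFinset_univ] at h1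
    rw [← h1]
    apply Finset.prod_eq_one
    intro i _
    simp
  have h2 : prob p {x | Reconstructible k x} = 1 - ∑ x : Fin n → Bool,
      if Reconstructible k x then 0 else ∏ i, (if x i then p i else 1 - p i) := by
    rw [eq_sub_iff_add_eq]
    refine Eq.trans ?_ hsum
    unfold prob
    rw [← Finset.sum_add_distrib]
    apply Finset.sum_congr rfl
    intro x _
    by_cases hr : Reconstructible k x
    · simp [hr]
    · simp [hr]
  rw [h2]
  have h3 : (∑ x : Fin n → Bool, if Reconstructible k x then 0 else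
      ∏ i, (if x i then p i else 1 - p i)) ≤ (n : ℝ) ^ 2 / 2 * (1 - ε) ^ l := by
    convert h
  linarith

end DeckA
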