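import Pool.Agent.DeckA.Prob

/-!
# Strings with few runs
-/

namespace DeckA

lemma runs_pos (a : Bool) (w : List Bool) : 1 ≤ runs (a :: w) := by
  induction w generalizing a with
  | nil => exact le_rfl
  | cons b w ih => rw [runs]; have := ih b; omega

lemma cnt_suffix_mono (c : Bool) {v w : List Bool} (h : v <:+ w) : cnt [c] v ≤ cnt [c] w := by
  obtain ⟨t, rfl⟩ := h
  induction t with
  | nil => simp
  | cons a t ih => rw [List.cons_append, cnt_cons_cons]; omega

/-- The values of the number of letters `c` at the cuts before a letter `c'`. -/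
lemma exists_vals {c c' : Bool} (hc : c ≠ c') (p : List Bool) : ∀ x' : List Bool,
    ∃ (V : Finset ℕ) (a : Bool) (w : List Bool), x' ++ c :: p = a :: w ∧
      (∀ v : List Bool, c' :: v <:+ x' ++ c :: p → p.length < v.length → cnt [c] v ∈ V) ∧
      (∀ m ∈ V, cnt [c] p < m) ∧
      (a = c → 2 * V.card + 1 ≤ runs (x' ++ c :: p)) ∧
      (a = c' → 2 * V.card ≤ runs (x' ++ c :: p) ∧ cnt [c] (x' ++ c :: p) ∈ V)
  | [] => by
    refine ⟨∅, c, p, rfl, ?_, by simp, ?_, fun h => absurd h hc⟩
    · intro v hv hlt
      have h1 := hv.length_le
      simp only [List.nil_append, List.length_cons] at h1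
      omega
    · intro _
      simpa using runs_pos c p
  | b :: x' => by
    obtain ⟨V, a, w, hw, h1, h2, h3, h4⟩ := exists_vals hc p x'
    rw [List.cons_append, hw]
    have hruns : runs (b :: a :: w) = runs (a :: w) + if b = a then 0 else 1 := rfl
    rw [hw] at h1 h3 h4
    have hsub : ∀ v : List Bool, c' :: v <:+ b :: a :: w → v = a :: w ∨ c' :: v <:+ a :: w := by
      intro v hv
      rcases suffix_cons_cases hv with h | h
      · left; exact (List.cons.inj h).2
      · right; exact h
    by_cases hb : b = c
    · subst hb
      refine ⟨V, b, a :: w, rfl, ?_, h2, ?_, fun h => absurd h hc⟩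
      · intro v hv hlt
        rcases suffix_cons_cases hv with h | h
        · exact absurd (List.cons.inj h).1 (Ne.symm hc)
        · exact h1 v h hlt
      · intro _
        rw [hruns]
        by_cases ha : a = b
        · have := h3 ha; omega
        · have ha' : a = c' := by
            cases a <;> cases b <;> cases c' <;> simp_all
          have := (h4 ha').1
          rw [if_neg (fun h => ha h.symm)]; omega
    · have hb' : b = c' := by
        cases b <;> cases c <;> cases c' <;> simp_all
      subst hb'
      have hcnt : cnt [c] (b :: a :: w) = cnt [c] (a :: w) := by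
        rw [cnt_cons_cons, if_neg (fun h => hb h.symm)]; omega
      by_cases ha : a = c
      · refine ⟨insert (cnt [c] (a :: w)) V, b, a :: w, rfl, ?_, ?_, fun h => absurd h hb, ?_⟩
        · intro v hv hlt
          rcases hsub v hv with h | h
          · rw [h]; exact Finset.mem_insert_self _ _
          · exact Finset.mem_insert_of_mem (h1 v h hlt)
        · intro m hm
          rcases Finset.mem_insert.1 hm with h | h
          · rw [h]
            have hs : c :: p <:+ a :: w := by rw [← hw]; exact List.suffix_append _ _
            have := cnt_suffix_mono c hs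
            rw [cnt_cons_cons, if_pos rfl, cnt_nil] at this
            omega
          · exact h2 m h
        · intro _
          have h5 := h3 ha
          have h6 := Finset.card_insert_le (cnt [c] (a :: w)) V
          rw [hruns, if_neg (fun h => hb (h.trans ha)), hcnt]
          exact ⟨by omega, Finset.mem_insert_self _ _⟩
      · have ha' : a = b := by
          cases a <;> cases b <;> cases c <;> simp_all
        subst ha'
        have h5 := h4 rfl
        refine ⟨V, a, a :: w, rfl, ?_, h2, fun h => absurd h hb, ?_⟩
        · intro v hv hlt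
          rcases hsub v hv with h | h
          · rw [h]; exact h5.2
          · exact h1 v h hlt
        · intro _
          rw [hruns, if_pos rfl, hcnt]
          exact ⟨by omega, h5.2⟩

lemma prod_mem_Pol (g : ℕ → List Bool → ℚ) (hg : ∀ m, g m ∈ Pol 1) (V : Finset ℕ) :
    ∏ m ∈ V, g m ∈ Pol V.card := by
  classical
  induction V using Finset.induction_on with
  | empty => simpa using one_mem_Pol 0
  | insert a V ha ih =>
    rw [Finset.prod_insert ha, Finset.card_insert_of_notMem ha, add_comm]
    exact mul_mem_Pol (hg a) ih

lemma I_append_eq' (s c : Bool) (hsc : s ≠ c) {h : List Bool → ℚ} (p : List Bool) :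
    ∀ x' : List Bool, (∀ v : List Bool, s :: v <:+ x' ++ c :: p → p.length < v.length → h v = 0) →
      I s h (x' ++ c :: p) = I s h p
  | [], _ => by simp [I, hsc]
  | a :: x', hv => by
    rw [List.cons_append, I, I_append_eq' s c hsc p x']
    · by_cases ha : s = a
      · have : h (x' ++ c :: p) = 0 := by
          apply hv
          · rw [ha]; exact List.suffix_rfl
          · simp; omega
        simp [this]
      · simp [ha]
    · intro v hv' hlt
      exact hv v (hv'.trans (List.suffix_cons _ _)) hlt

theorem few_runs {x y : List Bool} (hlen : x.length = y.length)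
    (h : ∀ z : List Bool, z.length ≤ runs x + 1 → cnt z x = cnt z y) : x = y := by
  by_contra hne
  obtain ⟨x', y', p, c, c', hc, rfl, rfl⟩ := exists_last_diff hlen hne
  obtain ⟨V, a, w, hw, h1, h2, h3, h4⟩ := exists_vals hc p x'
  have hcard : 2 * V.card ≤ runs (x' ++ c :: p) := by
    by_cases ha : a = c
    · have := h3 ha; omega
    · have ha' : a = c' := by
        cases a <;> cases c <;> cases c' <;> simp_all
      exact (h4 ha').1
  let g : ℕ → List Bool → ℚ := fun m => (fun w => (cnt [c] w : ℚ)) - (m : ℚ) • 1
  have hg : ∀ m, g m ∈ Pol 1 := fun m =>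
    sub_mem (cnt_mem (by simp)) (Submodule.smul_mem _ _ (one_mem_Pol 1))
  have hgv : ∀ m v, g m v = (cnt [c] v : ℚ) - m := by
    intro m v; simp [g]
  let f : List Bool → ℚ := ∏ m ∈ V, g m
  have hf : f ∈ Pol V.card := prod_mem_Pol g hg V
  have hfe : ∀ v, f v = ∏ m ∈ V, g m v := fun v => Finset.prod_apply v V g
  have hfp : f p ≠ 0 := by
    rw [hfe, Finset.prod_ne_zero_iff]
    intro m hm
    rw [hgv]
    have : ((cnt [c] p : ℕ) : ℚ) < m := by exact_mod_cast h2 m hm
    exact ne_of_lt (by linarith)
  have hfv : ∀ v : List Bool, c' :: v <:+ x' ++ c :: p → p.length < v.length → f v = 0 := by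
    intro v hv hlt
    rw [hfe]
    apply Finset.prod_eq_zero (h1 v hv hlt)
    rw [hgv]; simp
  have hF : I c' (f * f) ∈ Pol (runs (x' ++ c :: p) + 1) := by
    apply Pol_mono (by omega) (I_mem c' (mul_mem_Pol hf hf))
  have e1 := eval_eq h hF
  have e2 : I c' (f * f) (x' ++ c :: p) = I c' (f * f) p := by
    apply I_append_eq' c' c (Ne.symm hc)
    intro v hv hlt
    simp [hfv v hv hlt]
  have e3 : I c' (f * f) p + f p * f p ≤ I c' (f * f) (y' ++ c' :: p) := by
    have := I_append_ge c' (h := f * f) (fun w => mul_self_nonneg _) (c' :: p) y'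
    rw [I] at this
    simpa using this
  have e4 : 0 < f p * f p := mul_self_pos.2 hfp
  rw [e1] at e2
  rw [e2] at e3
  linarith

/-- A string with fewer than `k` runs is reconstructible from its `k`-deck. -/
theorem reconstructible_of_runs {n k : ℕ} (hkn : k ≤ n) (x : Fin n → Bool)
    (hx : runs (List.ofFn x) < k) : Reconstructible k x := by
  intro y hy
  have h := cnt_eq_of_deck hkn hy.symm
  have : List.ofFn x = List.ofFn y := by
    apply few_runs (by simp)
    intro z hz
    exact h z (by omega)
  exact (List.ofFn_injective this).symm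

end DeckA
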