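import Pool.Agent.DeckA.Prob

/-!
# The typical threshold
-/

namespace DeckA

open Filter Topology

lemma card_reconstructible_le (n k : ℕ) :
    Nat.card {x : Fin n → Bool // Reconstructible k x} ≤ (n.choose k + 1) ^ (2 ^ k) := by
  classical
  let Φ : {x : Fin n → Bool // Reconstructible k x} → ((Fin k → Bool) → Fin (n.choose k + 1)) :=
    fun x z => ⟨(deck k x.1).count (List.ofFn z), by
      have := Multiset.count_le_card (List.ofFn z) (deck k x.1)
      rw [card_deck] at this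
      omega⟩
  have hinj : Function.Injective Φ := by
    intro x y hxy
    apply Subtype.ext
    apply y.2
    rw [deck_ext_iff]
    intro z hz
    subst hz
    have h := congrArg Fin.val (congrFun hxy z.get)
    simp only [Φ, List.ofFn_get] at h
    rwa [count_deck _ z rfl, count_deck _ z rfl] at h
  have := Nat.card_le_card_of_injective Φ hinj
  simpa using this

lemma notRec_card (n k : ℕ) : ((Nat.card {x : Fin n → Bool // Reconstructible k x} : ℕ) : ℝ)
    = 2 ^ n * (1 - ∑ x : Fin n → Bool, open Classical in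
      if Reconstructible k x then 0 else ∏ i : Fin n, (if x i then (1 / 2 : ℝ) else 1 - 1 / 2)) := by
  classical
  have h1 : ∀ x : Fin n → Bool, (∏ i : Fin n, (if x i then (1 / 2 : ℝ) else 1 - 1 / 2))
      = (1 / 2) ^ n := by
    intro x
    rw [Finset.prod_congr rfl (g := fun _ => (1 / 2 : ℝ)) (fun i _ => by split_ifs <;> norm_num)]
    simp
  simp_rw [h1]
  have h2 : ∀ x : Fin n → Bool, (if Reconstructible k x then (0 : ℝ) else (1 / 2) ^ n)
      = (1 / 2) ^ n - (1 / 2) ^ n * (if Reconstructible k x then (1 : ℝ) else 0) := by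
    intro x; split_ifs <;> simp
  simp_rw [h2]
  rw [Finset.sum_sub_distrib, ← Finset.mul_sum, Finset.sum_boole]
  rw [Nat.card_eq_fintype_card, Fintype.card_subtype]
  simp only [Finset.sum_const, Finset.card_univ, Fintype.card_fun, Fintype.card_bool,
    Fintype.card_fin, nsmul_eq_mul]
  push_cast
  have h3 : (2 : ℝ) ^ n * (1 / 2) ^ n = 1 := by rw [← mul_pow]; norm_num
  rw [h3]
  have h4 : (2 : ℝ) ^ n * (1 - (1 - (1 / 2) ^ n
      * ((Finset.univ.filter fun x : Fin n → Bool => Reconstructible k x).card : ℝ)))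
      = ((2 : ℝ) ^ n * (1 / 2) ^ n)
        * ((Finset.univ.filter fun x : Fin n → Bool => Reconstructible k x).card : ℝ) := by ring
  rw [h4, h3, one_mul]

lemma upper_part {δ : ℝ} (hδ : 0 < δ) : ∀ᶠ n : ℕ in atTop, ∀ k : ℕ,
    (4 + δ) * Real.logb 2 n ≤ k → k ≤ n →
      (1 - δ) * 2 ^ n ≤ ((Nat.card {x : Fin n → Bool // Reconstructible k x} : ℕ) : ℝ) := by
  have h1 : Tendsto (fun n : ℕ => ((n : ℝ)) ^ (-(δ / 2))) atTop (𝓝 0) :=
    (tendsto_rpow_neg_atTop (by positivity)).comp tendsto_natCast_atTop_atTop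
  filter_upwards [h1.eventually_le_const hδ, eventually_ge_atTop 2] with n hn hn2 k hk hkn
  have hn0 : (0 : ℝ) < n := by positivity
  have hlog : 0 < Real.logb 2 n := Real.logb_pos (by norm_num) (by exact_mod_cast hn2)
  have hk1 : 1 ≤ k := by
    by_contra hcon
    have : k = 0 := by omega
    subst this
    have : 0 < (4 + δ) * Real.logb 2 n := by positivity
    simp at hk
    linarith
  have hs := smoothed (n := n) (k := k) (l := (k - 1) / 2) (by omega) hkn (ε := 1 / 2)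
    (fun _ => 1 / 2) (by norm_num) (fun i => by norm_num)
  rw [notRec_card]
  have h2 : (n : ℝ) ^ 2 / 2 * (1 - 1 / 2) ^ ((k - 1) / 2) ≤ (n : ℝ) ^ (-(δ / 2)) := by
    have e1 : (1 - 1 / 2 : ℝ) ^ ((k - 1) / 2) = (2 : ℝ) ^ (-(((k - 1) / 2 : ℕ) : ℝ)) := by
      rw [Real.rpow_neg (by norm_num), Real.rpow_natCast, ← inv_pow]
      norm_num
    have e2 : -(((k - 1) / 2 : ℕ) : ℝ) ≤ 1 - (2 + δ / 2) * Real.logb 2 n := by
      have : (k : ℝ) ≤ 2 * (((k - 1) / 2 : ℕ) : ℝ) + 2 := by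
        have : k ≤ 2 * ((k - 1) / 2) + 2 := by omega
        exact_mod_cast this
      nlinarith
    have e3 : (2 : ℝ) ^ (-(((k - 1) / 2 : ℕ) : ℝ)) ≤ (2 : ℝ) ^ (1 - (2 + δ / 2) * Real.logb 2 n) :=
      Real.rpow_le_rpow_of_exponent_le (by norm_num) e2
    have e4 : (2 : ℝ) ^ (1 - (2 + δ / 2) * Real.logb 2 n) = 2 * (n : ℝ) ^ (-(2 + δ / 2)) := by
      have : 1 - (2 + δ / 2) * Real.logb 2 n = 1 + Real.logb 2 n * (-(2 + δ / 2)) := by ring
      rw [this, Real.rpow_add (by norm_num), Real.rpow_one, Real.rpow_mul (by norm_num),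
        Real.rpow_logb (by norm_num) (by norm_num) hn0]
    rw [e1]
    calc (n : ℝ) ^ 2 / 2 * (2 : ℝ) ^ (-(((k - 1) / 2 : ℕ) : ℝ))
        ≤ (n : ℝ) ^ 2 / 2 * (2 * (n : ℝ) ^ (-(2 + δ / 2))) := by
          apply mul_le_mul_of_nonneg_left (e3.trans e4.le) (by positivity)
      _ = (n : ℝ) ^ (2 : ℝ) * (n : ℝ) ^ (-(2 + δ / 2)) := by
          rw [Real.rpow_two]; ring
      _ = (n : ℝ) ^ (-(δ / 2)) := by
          rw [← Real.rpow_add hn0]; congr 1; ring
  have h3 := (hs.trans h2).trans hn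
  have h4 : (0 : ℝ) < 2 ^ n := by positivity
  rw [mul_comm]
  apply mul_le_mul_of_nonneg_left _ h4.le
  linarith

lemma lower_aux {δ : ℝ} (hδ : 0 < δ) : ∀ᶠ n : ℕ in atTop,
    (n : ℝ) ^ (1 - δ) * (1 + Real.logb 2 n * Real.logb 2 n) ≤ n / 2 := by
  have h1 := (isLittleO_log_rpow_atTop (r := δ / 2) (by positivity)).bound
    (c := Real.log 2 / 2) (by have := Real.log_pos (by norm_num : (1 : ℝ) < 2); positivity)
  have h1' := tendsto_natCast_atTop_atTop (R := ℝ) |>.eventually h1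
  have h2 : Tendsto (fun n : ℕ => ((n : ℝ)) ^ δ) atTop atTop :=
    (tendsto_rpow_atTop hδ).comp tendsto_natCast_atTop_atTop
  filter_upwards [h1', h2.eventually_ge_atTop 4, eventually_ge_atTop 2] with n hn h4 hn2
  have hn0 : (0 : ℝ) < n := by positivity
  have hlog2 : 0 < Real.log 2 := Real.log_pos (by norm_num)
  have hlog : 0 < Real.logb 2 n := Real.logb_pos (by norm_num) (by exact_mod_cast hn2)
  have e1 : Real.logb 2 n ≤ (n : ℝ) ^ (δ / 2) / 2 := by
    unfold Real.logb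
    rw [div_le_iff₀ hlog2]
    have e2 := (le_abs_self _).trans hn
    rw [Real.norm_of_nonneg (by positivity)] at e2
    linarith
  have e3 : Real.logb 2 n * Real.logb 2 n ≤ (n : ℝ) ^ δ / 4 := by
    calc Real.logb 2 n * Real.logb 2 n ≤ ((n : ℝ) ^ (δ / 2) / 2) * ((n : ℝ) ^ (δ / 2) / 2) :=
          mul_le_mul e1 e1 hlog.le (by positivity)
      _ = ((n : ℝ) ^ (δ / 2) * (n : ℝ) ^ (δ / 2)) / 4 := by ring
      _ = (n : ℝ) ^ δ / 4 := by
          rw [← Real.rpow_add hn0]; congr 2; ring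
  calc (n : ℝ) ^ (1 - δ) * (1 + Real.logb 2 n * Real.logb 2 n)
      ≤ (n : ℝ) ^ (1 - δ) * ((n : ℝ) ^ δ / 2) := by
        apply mul_le_mul_of_nonneg_left _ (by positivity)
        linarith
    _ = ((n : ℝ) ^ (1 - δ) * (n : ℝ) ^ δ) / 2 := by ring
    _ = n / 2 := by
        rw [← Real.rpow_add hn0]
        congr 1
        rw [sub_add_cancel, Real.rpow_one]

lemma lower_part {δ : ℝ} (hδ : 0 < δ) : ∀ᶠ n : ℕ in atTop, ∀ k : ℕ,
    (k : ℝ) ≤ (1 - δ) * Real.logb 2 n →
      ((Nat.card {x : Fin n → Bool // Reconstructible k x} : ℕ) : ℝ) ≤ δ * 2 ^ n := by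
  have h1 : Tendsto (fun n : ℕ => ((1 / 2 : ℝ)) ^ ((n : ℝ) / 2)) atTop (𝓝 0) :=
    (tendsto_rpow_atTop_of_base_lt_one (1 / 2) (by norm_num) (by norm_num)).comp
      (tendsto_natCast_atTop_atTop.atTop_div_const (by norm_num))
  filter_upwards [h1.eventually_le_const hδ, eventually_ge_atTop 2, lower_aux hδ]
    with n hn hn2 ha k hk
  have hn0 : (0 : ℝ) < n := by positivity
  have hn1 : (1 : ℝ) ≤ n := by exact_mod_cast (by omega : 1 ≤ n)
  have hlog : 0 < Real.logb 2 n := Real.logb_pos (by norm_num) (by exact_mod_cast hn2)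
  have hc : ((Nat.card {x : Fin n → Bool // Reconstructible k x} : ℕ) : ℝ)
      ≤ ((n.choose k + 1 : ℕ) : ℝ) ^ (2 ^ k) := by
    exact_mod_cast card_reconstructible_le n k
  refine hc.trans ?_
  have h2 : ((n.choose k + 1 : ℕ) : ℝ) ≤ (2 : ℝ) ^ (1 + Real.logb 2 n * Real.logb 2 n) := by
    have e1 : ((n.choose k + 1 : ℕ) : ℝ) ≤ 2 * (n : ℝ) ^ k := by
      have : (n.choose k : ℝ) ≤ (n : ℝ) ^ k := by exact_mod_cast Nat.choose_le_pow n k
      have h3 : (1 : ℝ) ≤ (n : ℝ) ^ k := one_le_pow₀ hn1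
      push_cast
      linarith
    refine e1.trans ?_
    rw [Real.rpow_add (by norm_num), Real.rpow_one, Real.rpow_mul (by norm_num),
      Real.rpow_logb (by norm_num) (by norm_num) hn0]
    apply mul_le_mul_of_nonneg_left _ (by norm_num)
    rw [← Real.rpow_natCast]
    apply Real.rpow_le_rpow_of_exponent_le hn1
    nlinarith
  have h3 : ((2 ^ k : ℕ) : ℝ) ≤ (n : ℝ) ^ (1 - δ) := by
    push_cast
    rw [← Real.rpow_natCast]
    calc (2 : ℝ) ^ (k : ℝ) ≤ (2 : ℝ) ^ ((1 - δ) * Real.logb 2 n) :=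
          Real.rpow_le_rpow_of_exponent_le (by norm_num) hk
      _ = (n : ℝ) ^ (1 - δ) := by
          rw [mul_comm, Real.rpow_mul (by norm_num),
            Real.rpow_logb (by norm_num) (by norm_num) hn0]
  have h0 : (0 : ℝ) < 2 ^ n := by positivity
  calc ((n.choose k + 1 : ℕ) : ℝ) ^ (2 ^ k)
      ≤ ((2 : ℝ) ^ (1 + Real.logb 2 n * Real.logb 2 n)) ^ (2 ^ k) :=
        pow_le_pow_left₀ (by positivity) h2 _
    _ = (2 : ℝ) ^ (((2 ^ k : ℕ) : ℝ) * (1 + Real.logb 2 n * Real.logb 2 n)) := by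
        rw [← Real.rpow_natCast, ← Real.rpow_mul (by norm_num), mul_comm]
    _ ≤ (2 : ℝ) ^ ((n : ℝ) / 2) := by
        apply Real.rpow_le_rpow_of_exponent_le (by norm_num)
        refine le_trans ?_ ha
        apply mul_le_mul_of_nonneg_right h3 (by positivity)
    _ = (1 / 2 : ℝ) ^ ((n : ℝ) / 2) * 2 ^ n := by
        rw [one_div, Real.inv_rpow (by norm_num), ← Real.rpow_neg (by norm_num),
          ← Real.rpow_natCast 2 n, ← Real.rpow_add (by norm_num)]
        congr 1; ring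
    _ ≤ δ * 2 ^ n := mul_le_mul_of_nonneg_right hn h0.le

/-- The typical threshold for the size of the deck is of order `log n`. -/
theorem typical {δ : ℝ} (hδ : 0 < δ) : ∃ N : ℕ, ∀ n ≥ N, ∀ k : ℕ,
    ((4 + δ) * Real.logb 2 n ≤ k → k ≤ n →
      (1 - δ) * 2 ^ n ≤ ((Nat.card {x : Fin n → Bool // Reconstructible k x} : ℕ) : ℝ)) ∧
    ((k : ℝ) ≤ (1 - δ) * Real.logb 2 n →
      ((Nat.card {x : Fin n → Bool // Reconstructible k x} : ℕ) : ℝ) ≤ δ * 2 ^ n) := by
  obtain ⟨N, hN⟩ := eventually_atTop.1 ((upper_part hδ).and (lower_part hδ))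
  exact ⟨N, fun n hn k => ⟨(hN n hn).1 k, (hN n hn).2 k⟩⟩

end DeckA
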